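import Pool.Agent.Work.MP_d893f2_al.Main

/-! A finite lattice of subspaces with a homomorphic image that has no representation by
commuting equivalence relations on any set. -/

set_option autoImplicit false

namespace Pool.Agent.Results.MP_d893f2_al.FiniteSubspace

open Pool.Agent.Work.MP_d893f2_al

universe u

/-- The lattice `L` is isomorphic to a sublattice of the lattice of equivalence relations on `X`
whose members pairwise commute. -/
def RepOn (L : Type) [Lattice L] (X : Type u) : Prop :=
  ∃ f : LatticeHom L (Setoid X), Function.Injective f ∧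
    ∀ x y : L, Relation.Comp (f x) (f y) = Relation.Comp (f y) (f x)

/-- The lattice `L` is isomorphic to a sublattice of `S` containing the least and the largest
element of `S`. -/
def Emb (L S : Type) [Lattice L] [Lattice S] : Prop :=
  ∃ e : LatticeHom L S, Function.Injective e ∧ (∃ x, IsBot (e x)) ∧ ∃ y, IsTop (e y)

theorem exists_iso : Nonempty (Submodule (ZMod 2) (Fin 86 → ZMod 2) ≃o AddSubgroup (U × U × W)) := by
  have h : Module.finrank (ZMod 2) (Fin 86 → ZMod 2) = Module.finrank (ZMod 2) (U × U × W) := by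
    simp [Module.finrank_prod, ZMod.card]
  obtain ⟨e⟩ := FiniteDimensional.nonempty_linearEquiv_of_finrank_eq h
  exact ⟨(Submodule.orderIsoMapComap e).trans (AddSubgroup.toZModSubmodule 2).symm⟩

theorem comp_iff {X : Type*} (r s : Setoid X) :
    Relation.Comp r s = Relation.Comp s r ↔
      ∀ a b, (∃ c, r.r a c ∧ s.r c b) ↔ (∃ c, s.r a c ∧ r.r c b) :=
  ⟨fun h a b => Iff.of_eq (congrFun (congrFun h a) b),
    fun h => funext fun a => funext fun b => propext (h a b)⟩

theorem top_mem : (⊤ : AddSubgroup (U × U × W)) ∈ LL layA layB := by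
  have h1 : mid (⊤ : AddSubgroup (U × U × W)) = ⊤ := eq_top_iff.2 fun _ _ => ⟨0, trivial⟩
  have h2 : bot3 (⊤ : AddSubgroup (U × U × W)) = ⊤ := eq_top_iff.2 fun _ _ => trivial
  refine ⟨fun u t s _ => ?_, fun t s _ => ?_⟩
  · rw [h1]
    exact ⟨⟨fun _ _ _ => trivial, fun _ _ _ => trivial⟩, trivial⟩
  · rw [h2]
    exact ⟨⟨trivial, fun _ _ _ _ => trivial⟩, trivial⟩

theorem bot_mem : (⊥ : AddSubgroup (U × U × W)) ∈ LL layA layB := by
  refine ⟨fun u t s h => ?_, fun t s h => ?_⟩
  · obtain ⟨rfl, rfl, rfl⟩ : u = 0 ∧ t = 0 ∧ s = 0 := by simpa using h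
    exact AddSubgroup.zero_mem _
  · obtain ⟨rfl, rfl⟩ : t = 0 ∧ s = 0 := by simpa using h
    exact AddSubgroup.zero_mem _

/-- There is a finite sublattice `L`, containing the least and the largest element, of the lattice of
subspaces of the vector space of dimension 86 over the field with two elements, which is
represented by commuting equivalence relations on that space, and a finite homomorphic image `M`
of `L` which has no embedding into the equivalence relations on any set with pairwise commuting
values. -/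
theorem result :
    ∃ (L M : Type) (_ : Lattice L) (_ : Lattice M) (g : LatticeHom L M), Finite L ∧ Finite M ∧
      Emb L (Submodule (ZMod 2) (Fin 86 → ZMod 2)) ∧ RepOn L (Fin 86 → ZMod 2) ∧
      Function.Surjective g ∧ ∀ X : Type u, ¬ RepOn M X := by
  obtain ⟨φ⟩ := exists_iso
  let L : Sublattice (Submodule (ZMod 2) (Fin 86 → ZMod 2)) :=
    (LL layA layB).comap (φ : LatticeHom _ _)
  let k : LatticeHom L (LL layA layB) :=
    { toFun := fun x => ⟨φ x.1, x.2⟩
      map_sup' := fun x y => Subtype.ext (φ.map_sup x.1 y.1)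
      map_inf' := fun x y => Subtype.ext (φ.map_inf x.1 y.1) }
  have hk : Function.Surjective k := fun y =>
    ⟨⟨φ.symm y.1, show φ (φ.symm y.1) ∈ LL layA layB by rw [φ.apply_symm_apply]; exact y.2⟩,
      Subtype.ext (φ.apply_symm_apply y.1)⟩
  have hs : Function.Surjective ((quotM layA layB).comp k) := (quotM_surj layA layB).comp hk
  have hfin : Finite (Submodule (ZMod 2) (Fin 86 → ZMod 2)) :=
    Finite.of_injective _ SetLike.coe_injective
  let f : LatticeHom L (Setoid (Fin 86 → ZMod 2)) :=
    { toFun := fun x => cosetRel x.1.toAddSubgroup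
      map_sup' := fun x y => by
        rw [← cosetRel_sup, ← Submodule.sup_toAddSubgroup]; rfl
      map_inf' := fun x y => cosetRel_inf x.1.toAddSubgroup y.1.toAddSubgroup }
  have hb : ⊥ ∈ L := by
    show φ ⊥ ∈ LL layA layB
    rw [φ.map_bot]; exact bot_mem
  have ht : ⊤ ∈ L := by
    show φ ⊤ ∈ LL layA layB
    rw [φ.map_top]; exact top_mem
  refine ⟨L, MM layA layB, inferInstance, inferInstance, (quotM layA layB).comp k, inferInstance,
    Finite.of_surjective _ hs, ⟨L.subtype, L.subtype_injective, ⟨⟨⊥, hb⟩, isBot_bot⟩,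
      ⟨⊤, ht⟩, isTop_top⟩,
    ⟨f, fun x y h => ?_, fun x y => ?_⟩, hs, ?_⟩
  · exact Subtype.ext (Submodule.toAddSubgroup_injective (cosetRel_inj h))
  · exact (comp_iff _ _).2 fun a b => ⟨cosetRel_comm _ _ a b, cosetRel_comm _ _ a b⟩
  · rintro X ⟨h, hinj, hc⟩
    obtain ⟨R⟩ := exists_relSys layA layB X h hinj fun x y => (comp_iff _ _).1 (hc x y)
    exact no_relSys X R

end Pool.Agent.Results.MP_d893f2_al.FiniteSubspace
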